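import Mathlib

set_option autoImplicit false

/-!
Blocks of a graph and the pieces attached to the vertices of a block.
-/

namespace Pool.Agent.Q107.Sun

open Set

variable {V : Type} (G : SimpleGraph V)

/-- `y` can be reached from `x` inside `T`. -/
def Rch (T : Set V) (x y : V) : Prop :=
  Relation.ReflTransGen (fun a b => G.Adj a b ∧ a ∈ T ∧ b ∈ T) x y

def Conn (T : Set V) : Prop := ∀ x ∈ T, ∀ y ∈ T, Rch G T x y

/-- connected, nonempty, no cut vertex -/
def NoCut (B : Set V) : Prop := B.Nonempty ∧ Conn G B ∧ ∀ z ∈ B, Conn G (B \ {z})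

def BlockIn (S B : Set V) : Prop :=
  B ⊆ S ∧ NoCut G B ∧ ∀ B', B' ⊆ S → B ⊆ B' → NoCut G B' → B' = B

/-- the piece attached to the vertex `b` of `B` -/
def piece (S B : Set V) (b : V) : Set V :=
  {x | x ∈ S \ (B \ {b}) ∧ Rch G (S \ (B \ {b})) x b}

variable {G}

lemma Rch.mono {T T' : Set V} (h : T ⊆ T') {x y : V} (hxy : Rch G T x y) : Rch G T' x y := by
  induction hxy with
  | refl => exact Relation.ReflTransGen.refl
  | tail _ hab ih => exact Relation.ReflTransGen.tail ih ⟨hab.1, h hab.2.1, h hab.2.2⟩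

lemma Rch.symm {T : Set V} {x y : V} (h : Rch G T x y) : Rch G T y x := by
  induction h with
  | refl => exact Relation.ReflTransGen.refl
  | tail _ hbc ih => exact Relation.ReflTransGen.head ⟨hbc.1.symm, hbc.2.2, hbc.2.1⟩ ih

lemma Rch.trans {T : Set V} {x y z : V} (h : Rch G T x y) (h' : Rch G T y z) : Rch G T x z :=
  Relation.ReflTransGen.trans h h'

lemma Rch.refl (T : Set V) (x : V) : Rch G T x x := Relation.ReflTransGen.refl

lemma rch_step {T : Set V} {x y : V} (h : G.Adj x y) (hx : x ∈ T) (hy : y ∈ T) : Rch G T x y :=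
  Relation.ReflTransGen.single ⟨h, hx, hy⟩

lemma conn_of_reach {T B : Set V} (hB : Conn G B) (hBT : B ⊆ T)
    (h : ∀ x ∈ T, ∃ b ∈ B, Rch G T x b) : Conn G T := by
  intro x hx y hy
  obtain ⟨b, hb, h1⟩ := h x hx
  obtain ⟨c, hc, h2⟩ := h y hy
  exact h1.trans (((hB b hb c hc).mono hBT).trans h2.symm)

lemma conn_union {A C : Set V} (hA : Conn G A) (hC : Conn G C) {a c : V} (ha : a ∈ A) (hc : c ∈ C)
    (hac : G.Adj a c) : Conn G (A ∪ C) := by
  refine conn_of_reach hA subset_union_left ?_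
  rintro x (hx | hx)
  · exact ⟨x, hx, Rch.refl _ _⟩
  · exact ⟨a, ha, ((hC x hx c hc).mono subset_union_right).trans
      (rch_step hac.symm (Or.inr hc) (Or.inl ha))⟩

lemma conn_comp {T : Set V} (x : V) : Conn G {y | y ∈ T ∧ Rch G T x y} := by
  have key : ∀ y, Rch G T x y → Rch G {y | y ∈ T ∧ Rch G T x y} x y := by
    intro y h
    induction h with
    | refl => exact Rch.refl _ _
    | tail hxb hbc ih =>
      refine ih.trans (rch_step hbc.1 ⟨hbc.2.1, hxb⟩ ⟨hbc.2.2, ?_⟩)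
      exact Relation.ReflTransGen.tail hxb hbc
  intro y hy z hz
  exact (key y hy.2).symm.trans (key z hz.2)

variable {S B : Set V}

lemma self_mem_piece (hBS : B ⊆ S) {b : V} (hb : b ∈ B) : b ∈ piece G S B b :=
  ⟨⟨hBS hb, fun h => h.2 rfl⟩, Rch.refl _ _⟩

lemma piece_subset (b : V) : piece G S B b ⊆ S := fun _ hx => hx.1.1

lemma conn_piece (b : V) : Conn G (piece G S B b) := by
  have key : ∀ x ∈ piece G S B b, Rch G (piece G S B b) x b := by
    intro x hx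
    have h := hx.2
    revert hx
    refine Relation.ReflTransGen.head_induction_on h (fun _ => Rch.refl _ _) ?_
    intro x y hxy hyb ih hx
    have hy : y ∈ piece G S B b := ⟨hxy.2.2, hyb⟩
    exact (rch_step hxy.1 hx hy).trans (ih hy)
  intro x hx y hy
  exact (key x hx).trans (key y hy).symm

variable [Finite V]

/-- No connected set outside a block is attached to two of its vertices. -/
lemma no_ear (hB : BlockIn G S B) {X : Set V} (hX : X ⊆ S \ B) (hXc : Conn G X) {b b' : V}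
    (hb : b ∈ B) (hb' : b' ∈ B) (hne : b ≠ b') (h1 : ∃ z ∈ X, G.Adj z b)
    (h2 : ∃ z ∈ X, G.Adj z b') : False := by
  classical
  let Pr : Set V → Prop := fun X => X ⊆ S \ B ∧ Conn G X ∧ ∃ b ∈ B, ∃ b' ∈ B, b ≠ b' ∧
    (∃ z ∈ X, G.Adj z b) ∧ ∃ z ∈ X, G.Adj z b'
  obtain ⟨Y, hY⟩ := exists_minimal_of_wellFoundedLT Pr ⟨X, hX, hXc, b, hb, b', hb', hne, h1, h2⟩
  obtain ⟨⟨hYS, hYc, c, hc, c', hc', hcc, ⟨z, hz, hzc⟩, ⟨z', hz', hzc'⟩⟩, hmin⟩ := hY
  have hdis : ∀ x ∈ Y, x ∉ B := fun x hx => (hYS hx).2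
  obtain ⟨hBS, ⟨hBne, hBc, hBcut⟩, hmax⟩ := hB
  have hno : NoCut G (B ∪ Y) := by
    refine ⟨hBne.mono subset_union_left, conn_union hBc hYc hc hz hzc.symm, ?_⟩
    rintro y (hy | hy)
    · have e : (B ∪ Y) \ {y} = (B \ {y}) ∪ Y := by
        ext x
        constructor
        · rintro ⟨h | h, h'⟩
          · exact Or.inl ⟨h, h'⟩
          · exact Or.inr h
        · rintro (⟨h, h'⟩ | h)
          · exact ⟨Or.inl h, h'⟩
          · exact ⟨Or.inr h, fun h' => hdis x h (h' ▸ hy)⟩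
      rw [e]
      by_cases hyc : c = y
      · have : c' ≠ y := fun h => hcc (hyc.trans h.symm)
        exact conn_union (hBcut y hy) hYc (show c' ∈ B \ {y} from ⟨hc', this⟩) hz' hzc'.symm
      · exact conn_union (hBcut y hy) hYc (show c ∈ B \ {y} from ⟨hc, hyc⟩) hz hzc.symm
    · refine conn_of_reach hBc (fun x hx => ⟨Or.inl hx, fun h => hdis y hy (h ▸ hx)⟩) ?_
      rintro x ⟨hx | hx, hxy⟩
      · exact ⟨x, hx, Rch.refl _ _⟩
      by_contra hcon
      push Not at hcon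
      have hxT : x ∈ Y \ {y} := ⟨hx, hxy⟩
      have hsub : Y \ {y} ⊆ (B ∪ Y) \ {y} := fun w hw => ⟨Or.inr hw.1, hw.2⟩
      -- the component of `x` in `Y \ {y}` can be omitted
      set C : Set V := {w | w ∈ Y \ {y} ∧ Rch G (Y \ {y}) x w} with hC
      have hCB : ∀ w ∈ C, ∀ d ∈ B, ¬ G.Adj w d := by
        intro w hw d hd had
        apply hcon d hd
        refine (hw.2.mono hsub).trans (rch_step had (hsub hw.1) ⟨Or.inl hd, ?_⟩)
        exact fun h => hdis y hy (h ▸ hd)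
      have hyC : y ∉ C := fun h => h.1.2 rfl
      have hxC : x ∈ C := ⟨hxT, Rch.refl _ _⟩
      have hreach : ∀ w, Rch G Y w y → w ∈ Y → w ∉ C → Rch G (Y \ C) w y := by
        intro w hw
        refine Relation.ReflTransGen.head_induction_on hw (fun _ _ => Rch.refl _ _) ?_
        intro w w' hww _ ih hwY hwC
        by_cases hwy : w = y
        · rw [hwy]; exact Rch.refl _ _
        have hw'C : w' ∉ C := by
          intro h
          apply hwC
          refine ⟨⟨hwY, hwy⟩, h.2.trans (rch_step hww.1.symm h.1 ⟨hwY, hwy⟩)⟩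
        exact (rch_step hww.1 (show w ∈ Y \ C from ⟨hwY, hwC⟩) ⟨hww.2.2, hw'C⟩).trans
          (ih hww.2.2 hw'C)
      have hPr : Pr (Y \ C) := by
        refine ⟨fun w hw => hYS hw.1, ?_, c, hc, c', hc', hcc, ⟨z, ⟨hz, fun h => ?_⟩, hzc⟩,
          ⟨z', ⟨hz', fun h => ?_⟩, hzc'⟩⟩
        · intro w hw w' hw'
          exact (hreach w (hYc w hw.1 y hy) hw.1 hw.2).trans
            (hreach w' (hYc w' hw'.1 y hy) hw'.1 hw'.2).symm
        · exact hCB z h c hc hzc
        · exact hCB z' h c' hc' hzc'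
      have h3 := hmin hPr sdiff_subset
      exact (h3 hx).2 hxC
  have h3 := hmax (B ∪ Y) (union_subset hBS (hYS.trans sdiff_subset)) subset_union_left hno
  have h4 : z ∈ B := by rw [← h3]; exact Or.inr hz
  exact hdis z hz h4

lemma piece_disjoint (hB : BlockIn G S B) {b b' x : V} (hb : b ∈ B) (hb' : b' ∈ B)
    (hx : x ∈ piece G S B b) (hx' : x ∈ piece G S B b') : b = b' := by
  by_contra hne
  have hxB : x ∉ B := by
    intro h
    have h1 : x = b := by
      by_contra h2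
      exact hx.1.2 ⟨h, h2⟩
    have h2 : x = b' := by
      by_contra h2
      exact hx'.1.2 ⟨h, h2⟩
    exact hne (h1.symm.trans h2)
  set X : Set V := {y | y ∈ S \ B ∧ Rch G (S \ B) x y} with hX
  have hxX : x ∈ X := ⟨⟨hx.1.1, hxB⟩, Rch.refl _ _⟩
  have key : ∀ c ∈ B, ∀ y, Rch G (S \ (B \ {c})) x y → y ∈ X ∨ ∃ z ∈ X, G.Adj z c := by
    intro c hc y h
    induction h with
    | refl => exact Or.inl hxX
    | @tail y y' _ hyy ih =>
      rcases ih with ih | ih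
      · by_cases hyc : y' = c
        · subst hyc
          exact Or.inr ⟨y, ih, hyy.1⟩
        · have hyB : y' ∉ B := fun h => hyy.2.2.2 ⟨h, hyc⟩
          have hyS : y' ∈ S \ B := ⟨hyy.2.2.1, hyB⟩
          exact Or.inl ⟨hyS, ih.2.trans (rch_step hyy.1 ih.1 hyS)⟩
      · exact Or.inr ih
  have h1 : ∃ z ∈ X, G.Adj z b := (key b hb b hx.2).resolve_left fun h => h.1.2 hb
  have h2 : ∃ z ∈ X, G.Adj z b' := (key b' hb' b' hx'.2).resolve_left fun h => h.1.2 hb'
  exact no_ear hB (X := X) (fun y hy => hy.1) (conn_comp x) hb hb' hne h1 h2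

lemma stay (hB : BlockIn G S B) {b x y : V} (hb : b ∈ B) (hx : x ∈ piece G S B b) (hxb : x ≠ b)
    (hxy : G.Adj x y) (hy : y ∈ S) : y ∈ piece G S B b := by
  have hxB : x ∉ B := fun h => hx.1.2 ⟨h, hxb⟩
  by_cases hyB : y ∈ B \ {b}
  · exfalso
    have h1 : x ∈ piece G S B y := by
      refine ⟨⟨hx.1.1, fun h => hxB h.1⟩, rch_step hxy ⟨hx.1.1, fun h => hxB h.1⟩
        ⟨hy, fun h => h.2 rfl⟩⟩
    exact hyB.2 (piece_disjoint hB hb hyB.1 hx h1).symm
  · have h1 : y ∈ S \ (B \ {b}) := ⟨hy, hyB⟩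
    exact ⟨h1, (rch_step hxy.symm h1 hx.1).trans hx.2⟩

lemma piece_edge (hB : BlockIn G S B) {b b' x y : V} (hb : b ∈ B) (hb' : b' ∈ B)
    (hx : x ∈ piece G S B b) (hy : y ∈ piece G S B b') (hne : b ≠ b') (hxy : G.Adj x y) :
    x = b ∧ y = b' := by
  constructor
  · by_contra h
    exact hne (piece_disjoint hB hb hb' (stay hB hb hx h hxy hy.1.1) hy)
  · by_contra h
    exact hne (piece_disjoint hB hb hb' hx (stay hB hb' hy h hxy.symm hx.1.1))

lemma piece_cover (hS : Conn G S) (hB : BlockIn G S B) {x : V} (hx : x ∈ S) :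
    ∃ b ∈ B, x ∈ piece G S B b := by
  obtain ⟨b0, hb0⟩ := hB.2.1.1
  have h := hS x hx b0 (hB.1 hb0)
  revert hx
  refine Relation.ReflTransGen.head_induction_on h
    (fun _ => ⟨b0, hb0, self_mem_piece hB.1 hb0⟩) ?_
  intro x y hxy _ ih hx
  obtain ⟨b, hb, hyb⟩ := ih hxy.2.2
  by_cases hxB : x ∈ B
  · exact ⟨x, hxB, self_mem_piece hB.1 hxB⟩
  · have h1 : x ∈ S \ (B \ {b}) := ⟨hx, fun h => hxB h.1⟩
    exact ⟨b, hb, h1, (rch_step hxy.1 h1 hyb.1).trans hyb.2⟩

lemma block_piece (hB : BlockIn G S B) {b : V} (hb : b ∈ B) {A : Set V}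
    (hA : BlockIn G (piece G S B b) A) (h2 : ∃ x ∈ A, ∃ y ∈ A, x ≠ y) : BlockIn G S A := by
  refine ⟨hA.1.trans (piece_subset b), hA.2.1, ?_⟩
  intro A' hA'S hAA' hA'
  apply hA.2.2 A' ?_ hAA' hA'
  obtain ⟨x, hx, hxb⟩ : ∃ x ∈ A, x ≠ b := by
    obtain ⟨x, hx, y, hy, hxy⟩ := h2
    by_cases h : x = b
    · exact ⟨y, hy, fun h' => hxy (h.trans h'.symm)⟩
    · exact ⟨x, hx, h⟩
  intro z hz
  by_cases hzb : z = b
  · rw [hzb]; exact self_mem_piece hB.1 hb
  have hr : Rch G (A' \ {b}) x z := by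
    by_cases hbA : b ∈ A'
    · exact hA'.2.2 b hbA x ⟨hAA' hx, hxb⟩ z ⟨hz, hzb⟩
    · have e : A' \ {b} = A' := by
        ext w
        exact ⟨fun h => h.1, fun h => ⟨h, fun h' => hbA (h' ▸ h)⟩⟩
      rw [e]
      exact hA'.2.1 x (hAA' hx) z hz
  have key : ∀ w, Rch G (A' \ {b}) x w → w ∈ piece G S B b := by
    intro w h
    induction h with
    | refl => exact hA.1 hx
    | tail _ hww ih => exact stay hB hb ih hww.2.1.2 hww.1 (hA'S hww.2.2.1)
  exact key z hr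

lemma exists_block (hS : Conn G S) {v w : V} (hv : v ∈ S) (hw : w ∈ S) (hvw : v ≠ w) :
    ∃ B, BlockIn G S B ∧ v ∈ B ∧ ∃ x ∈ B, ∃ y ∈ B, x ≠ y := by
  obtain ⟨c, hc⟩ : ∃ c, G.Adj v c ∧ c ∈ S := by
    rcases Relation.ReflTransGen.cases_head (hS v hv w hw) with h | ⟨c, h, _⟩
    · exact absurd h hvw
    · exact ⟨c, h.1, h.2.2⟩
  have hpair : NoCut G {v, c} := by
    refine ⟨⟨v, Or.inl rfl⟩, ?_, ?_⟩
    · rintro x (rfl | rfl) y (rfl | rfl)
      · exact Rch.refl _ _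
      · exact rch_step hc.1 (Or.inl rfl) (Or.inr rfl)
      · exact rch_step hc.1.symm (Or.inr rfl) (Or.inl rfl)
      · exact Rch.refl _ _
    · rintro z (rfl | rfl) x ⟨rfl | rfl, hx⟩ y ⟨rfl | rfl, hy⟩
      all_goals first | exact Rch.refl _ _ | exact absurd rfl hx | exact absurd rfl hy
  obtain ⟨B, hB1, hB2⟩ := (toFinite {B : Set V | B ⊆ S ∧ NoCut G B}).exists_le_maximal
    (a := {v, c}) ⟨by
      rintro x (rfl | rfl)
      · exact hv
      · exact hc.2, hpair⟩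
  refine ⟨B, ⟨hB2.1.1, hB2.1.2, fun B' h1 h2 h3 => ?_⟩, hB1 (Or.inl rfl), v, hB1 (Or.inl rfl), c,
    hB1 (Or.inr rfl), hc.1.ne⟩
  exact Subset.antisymm (hB2.2 ⟨h1, h3⟩ h2) h2

end Pool.Agent.Q107.Sun
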