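import Pool.Agent.Q107.Sun.Strip
import Pool.Agent.Q107.Sun.Block

set_option autoImplicit false

/-!
Representations of a graph with a block that is a chordless sun, from representations of the pieces
attached to the vertices of the block.
-/

namespace Pool.Agent.Q107.Sun

open Set

variable {V : Type} {G : SimpleGraph V} {φ : ℝ → ℝ → ℝ} {S B : Set V}

/-- `B` is a sun with the cycle `w 0, …, w (k - 1)` and the tips `z 0, …, z (k - 1)`. -/
structure SunData (G : SimpleGraph V) (B : Set V) (k : ℕ) (w z : ℕ → V) : Prop where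
  hk : 3 ≤ k
  hw : ∀ i, i < k → w i ∈ B
  hz : ∀ i, i < k → z i ∈ B
  winj : ∀ i j, i < k → j < k → w i = w j → i = j
  zinj : ∀ i j, i < k → j < k → z i = z j → i = j
  wne : ∀ i j, i < k → j < k → w i ≠ z j
  cover : ∀ x ∈ B, (∃ i, i < k ∧ x = w i) ∨ ∃ i, i < k ∧ x = z i
  ww : ∀ i j, i < j → j < k → (G.Adj (w i) (w j) ↔ j = i + 1 ∨ (i = 0 ∧ j = k - 1))
  wz : ∀ i j, i < k → j < k → (G.Adj (w i) (z j) ↔ i = j ∨ i = j + 1 ∨ (i = 0 ∧ j = k - 1))
  zz : ∀ i j, i < k → j < k → ¬ G.Adj (z i) (z j)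

/-- the union of the pieces of the vertices of `I` -/
def full (G : SimpleGraph V) (S B I : Set V) : Set V := {x | ∃ c ∈ I, x ∈ piece G S B c}

variable [Finite V]

/-- Attach the piece of a vertex at the right end. -/
lemma attach (hφ : ArchFun φ) (hB : BlockIn G S B) {S₁ C₁ L₁ R₁ : Set V}
    (h : Fam G φ S₁ C₁ L₁ R₁) {c : V} (hcB : c ∈ B) (hU : Fam G φ (piece G S B c) {c} {c} {c})
    (hR : c ∈ R₁) (hC : c ∈ C₁) (hCS : C₁ ⊆ S₁)
    (hI : ∀ x ∈ S₁, ∃ d ∈ B, x ∈ piece G S B d ∧ (d = c → x = c)) :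
    Fam G φ (S₁ ∪ piece G S B c) {c} L₁ {c} := by
  have h1 := Fam.concat hφ h hU c hR rfl hC rfl hCS
    (singleton_subset_iff.2 (self_mem_piece hB.1 hcB)) ?_ ?_
  · exact h1.mono (singleton_subset_iff.2 (Or.inr rfl)) subset_rfl subset_rfl
  · intro x hx hx'
    obtain ⟨d, hd, hxd, hdc⟩ := hI x hx
    exact hdc (piece_disjoint hB hd hcB hxd hx')
  · intro x hx y hy hxc hyc hadj
    obtain ⟨d, hd, hxd, hdc⟩ := hI x hx
    have hne : d ≠ c := fun h => hxc (hdc h)
    exact hyc (piece_edge hB hd hcB hxd hy hne hadj).2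

/-- Concatenation at a vertex of the block. -/
lemma cat (hφ : ArchFun φ) (hB : BlockIn G S B) {S₁ C₁ L₁ R₁ S₂ C₂ L₂ R₂ I₁ I₂ : Set V}
    (h₁ : Fam G φ S₁ C₁ L₁ R₁) (h₂ : Fam G φ S₂ C₂ L₂ R₂) {c : V}
    (hR : c ∈ R₁) (hL : c ∈ L₂) (hC1 : c ∈ C₁) (hC2 : c ∈ C₂) (hCS1 : C₁ ⊆ S₁) (hCS2 : C₂ ⊆ S₂)
    (hI₁ : ∀ x ∈ S₁, ∃ d ∈ I₁, x ∈ piece G S B d) (hI₂ : ∀ x ∈ S₂, ∃ d ∈ I₂, x ∈ piece G S B d ∧
      (d = c → x = c)) (hB₁ : I₁ ⊆ B) (hB₂ : I₂ ⊆ B) (hI : ∀ d ∈ I₁, d ∈ I₂ → d = c)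
    (hE : ∀ d ∈ I₁, ∀ e ∈ I₂, d ≠ c → e ≠ c → ¬ G.Adj d e) :
    Fam G φ (S₁ ∪ S₂) (C₁ ∪ C₂) L₁ R₂ := by
  refine Fam.concat hφ h₁ h₂ c hR hL hC1 hC2 hCS1 hCS2 ?_ ?_
  · intro x hx hx'
    obtain ⟨d, hd, hxd⟩ := hI₁ x hx
    obtain ⟨e, he, hxe, hec⟩ := hI₂ x hx'
    have hde := piece_disjoint hB (hB₁ hd) (hB₂ he) hxd hxe
    subst hde
    exact hec (hI d hd he)
  · intro x hx y hy hxc hyc hadj
    obtain ⟨d, hd, hxd⟩ := hI₁ x hx
    obtain ⟨e, he, hxe, hec⟩ := hI₂ y hy
    by_cases hde : d = e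
    · subst hde
      exact hyc (hec (hI d hd he))
    · obtain ⟨rfl, rfl⟩ := piece_edge hB (hB₁ hd) (hB₂ he) hxd hxe hde hadj
      exact hE x hd y he hxc hyc hadj

/-- A unit: the piece of a tip with some of its neighbours. -/
lemma unit (hφ : ArchFun φ) (hB : BlockIn G S B) {c : V} (hcB : c ∈ B) {K : Set V} (hKB : K ⊆ B)
    (hU : Fam G φ (piece G S B c) {c} {c} {c}) (hcK : c ∉ K)
    (hK : ∀ x ∈ K, ∀ y ∈ K, x ≠ y → G.Adj x y) (hadj : ∀ x ∈ K, G.Adj x c) :
    Fam G φ (piece G S B c ∪ K) K ({c} ∪ K) ({c} ∪ K) := by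
  refine Fam.umbrella hφ (toFinite _) hU ?_ hK ?_
  · intro x hx hx'
    exact hcK (piece_disjoint hB (hKB hx) hcB (self_mem_piece hB.1 (hKB hx)) hx' ▸ hx)
  · intro x hx y hy
    constructor
    · intro h
      have hne : x ≠ c := fun h => hcK (h ▸ hx)
      exact Or.inl (piece_edge hB (hKB hx) hcB (self_mem_piece hB.1 (hKB hx)) hy hne h).2
    · rintro (h | h)
      · rw [mem_singleton_iff.1 h]; exact hadj x hx
      · rw [mem_singleton_iff.1 h]; exact hadj x hx

section chain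

variable {k : ℕ} {w z : ℕ → V}

/-- index sets -/
def Idx (w z : ℕ → V) (e : Prop) (m : ℕ) : Set V :=
  {c | (∃ i, 1 ≤ i ∧ i ≤ m + 1 ∧ c = w i) ∨ (∃ i, 1 ≤ i ∧ i ≤ m ∧ c = z i) ∨ (e ∧ c = z 0)}

def Lft (w z : ℕ → V) (e : Prop) : Set V := {c | c = w 1 ∨ (e ∧ c = z 0)}

omit [Finite V] in
lemma idx_sub (hs : SunData G B k w z) (e : Prop) {m : ℕ} (hm : m + 1 < k) : Idx w z e m ⊆ B := by
  have := hs.hk
  rintro c (⟨i, h1, h2, rfl⟩ | ⟨i, h1, h2, rfl⟩ | ⟨_, rfl⟩)
  · exact hs.hw i (by omega)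
  · exact hs.hz i (by omega)
  · exact hs.hz 0 (by omega)

lemma base (hφ : ArchFun φ) (hB : BlockIn G S B) (hs : SunData G B k w z)
    (hU : ∀ b ∈ B, Fam G φ (piece G S B b) {b} {b} {b}) (e : Prop) :
    Fam G φ (full G S B (Idx w z e 0)) {w 1} (Lft w z e) {w 1} := by
  have hk := hs.hk
  have hw1 := hs.hw 1 (by omega)
  have hz0 := hs.hz 0 (by omega)
  by_cases he : e
  · have h1 := unit hφ hB hz0 (K := {w 1}) (singleton_subset_iff.2 hw1) (hU _ hz0)
      (fun h => hs.wne 1 0 (by omega) (by omega) (mem_singleton_iff.1 h).symm)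
      (fun x hx y hy hxy => absurd ((mem_singleton_iff.1 hx).trans (mem_singleton_iff.1 hy).symm)
        hxy)
      (fun x hx => by
        rw [mem_singleton_iff.1 hx]
        exact (hs.wz 1 0 (by omega) (by omega)).2 (Or.inr (Or.inl rfl)))
    have h2 := attach hφ hB h1 hw1 (hU _ hw1) (Or.inr rfl) rfl subset_union_right ?_
    · have e1 : (piece G S B (z 0) ∪ {w 1}) ∪ piece G S B (w 1) =
          full G S B (Idx w z e 0) := by
        ext x
        constructor
        · rintro ((h | h) | h)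
          · exact ⟨z 0, Or.inr (Or.inr ⟨he, rfl⟩), h⟩
          · exact ⟨w 1, Or.inl ⟨1, le_rfl, le_rfl, rfl⟩, by
              rw [mem_singleton_iff.1 h]; exact self_mem_piece hB.1 hw1⟩
          · exact ⟨w 1, Or.inl ⟨1, le_rfl, le_rfl, rfl⟩, h⟩
        · rintro ⟨c, ⟨i, h1, h2, rfl⟩ | ⟨i, h1, h2, rfl⟩ | ⟨_, rfl⟩, h⟩
          · obtain rfl : i = 1 := by omega
            exact Or.inr h
          · omega
          · exact Or.inl (Or.inl h)
      have e2 : ({z 0} ∪ {w 1} : Set V) = Lft w z e := by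
        ext x
        constructor
        · rintro (h | h)
          · exact Or.inr ⟨he, h⟩
          · exact Or.inl h
        · rintro (h | ⟨_, h⟩)
          · exact Or.inr h
          · exact Or.inl h
      rw [e1, e2] at h2
      exact h2
    · rintro x (hx | hx)
      · exact ⟨z 0, hz0, hx, fun h => absurd h.symm (hs.wne 1 0 (by omega) (by omega))⟩
      · rw [mem_singleton_iff.1 hx]
        exact ⟨w 1, hw1, self_mem_piece hB.1 hw1, fun _ => rfl⟩
  · have e1 : piece G S B (w 1) = full G S B (Idx w z e 0) := by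
      ext x
      constructor
      · intro h
        exact ⟨w 1, Or.inl ⟨1, le_rfl, le_rfl, rfl⟩, h⟩
      · rintro ⟨c, ⟨i, h1, h2, rfl⟩ | ⟨i, h1, h2, rfl⟩ | ⟨h, _⟩, h⟩
        · obtain rfl : i = 1 := by omega
          exact h
        · omega
        · exact absurd h he
    have e2 : ({w 1} : Set V) = Lft w z e := by
      ext x
      constructor
      · intro h; exact Or.inl h
      · rintro (h | ⟨h, _⟩)
        · exact h
        · exact absurd h he
    have h1 := hU _ hw1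
    rw [e1] at h1
    exact h1.mono subset_rfl e2.symm.subset subset_rfl

lemma chain_step (hφ : ArchFun φ) (hB : BlockIn G S B) (hs : SunData G B k w z)
    (hU : ∀ b ∈ B, Fam G φ (piece G S B b) {b} {b} {b}) (e : Prop) {m : ℕ} (hm : m + 2 < k)
    (h : Fam G φ (full G S B (Idx w z e m)) {w (m + 1)} (Lft w z e) {w (m + 1)}) :
    Fam G φ (full G S B (Idx w z e (m + 1))) {w (m + 2)} (Lft w z e) {w (m + 2)} := by
  have hk := hs.hk
  have hw1 := hs.hw (m + 1) (by omega)
  have hw2 := hs.hw (m + 2) (by omega)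
  have hz1 := hs.hz (m + 1) (by omega)
  have hIB := idx_sub hs e (m := m) (by omega)
  have hww : w (m + 1) ≠ w (m + 2) := fun h => by
    have := hs.winj _ _ (by omega) (by omega) h
    omega
  have hadj12 : G.Adj (w (m + 1)) (w (m + 2)) :=
    (hs.ww (m + 1) (m + 2) (by omega) (by omega)).2 (Or.inl rfl)
  have hKB : ({w (m + 1), w (m + 2)} : Set V) ⊆ B := by
    rintro x (rfl | rfl)
    · exact hw1
    · exact hw2
  have hzK : z (m + 1) ∉ ({w (m + 1), w (m + 2)} : Set V) := by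
    rintro (h | h)
    · exact hs.wne _ _ (by omega) (by omega) h.symm
    · exact hs.wne _ _ (by omega) (by omega) (mem_singleton_iff.1 h).symm
  have hu := unit hφ hB hz1 (K := {w (m + 1), w (m + 2)}) hKB (hU _ hz1) hzK
    (by
      rintro x (rfl | rfl) y (rfl | rfl) hxy
      · exact absurd rfl hxy
      · exact hadj12
      · exact hadj12.symm
      · exact absurd rfl hxy)
    (by
      rintro x (rfl | rfl)
      · exact (hs.wz _ _ (by omega) (by omega)).2 (Or.inl rfl)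
      · exact (hs.wz _ _ (by omega) (by omega)).2 (Or.inr (Or.inl rfl)))
  -- concatenate
  have h1 := cat hφ hB (I₁ := Idx w z e m) (I₂ := {z (m + 1), w (m + 1), w (m + 2)}) h hu
    (c := w (m + 1)) rfl (Or.inr (Or.inl rfl)) rfl (Or.inl rfl)
    (singleton_subset_iff.2 ⟨w (m + 1), Or.inl ⟨m + 1, by omega, le_rfl, rfl⟩,
      self_mem_piece hB.1 hw1⟩) subset_union_right (fun x hx => hx)
    (by
      rintro x (hx | rfl | rfl)
      · exact ⟨z (m + 1), Or.inl rfl, hx, fun h =>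
          absurd h.symm (hs.wne _ _ (by omega) (by omega))⟩
      · exact ⟨w (m + 1), Or.inr (Or.inl rfl), self_mem_piece hB.1 hw1, fun _ => rfl⟩
      · exact ⟨w (m + 2), Or.inr (Or.inr rfl), self_mem_piece hB.1 hw2, fun h =>
          absurd h hww.symm⟩)
    hIB
    (by
      rintro x (rfl | rfl | rfl)
      · exact hz1
      · exact hw1
      · exact hw2)
    (by
      rintro d hd (rfl | rfl | rfl)
      · rcases hd with ⟨i, h1, h2, h3⟩ | ⟨i, h1, h2, h3⟩ | ⟨_, h3⟩
        · exact absurd h3.symm (hs.wne _ _ (by omega) (by omega))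
        · have := hs.zinj _ _ (by omega) (by omega) h3
          omega
        · have := hs.zinj _ _ (by omega) (by omega) h3
          omega
      · rfl
      · rcases hd with ⟨i, h1, h2, h3⟩ | ⟨i, h1, h2, h3⟩ | ⟨_, h3⟩
        · have := hs.winj _ _ (by omega) (by omega) h3
          omega
        · exact absurd h3 (hs.wne _ _ (by omega) (by omega))
        · exact absurd h3 (hs.wne _ _ (by omega) (by omega)))
    (by
      rintro d hd x hx hdc hxc hadj
      rcases hx with rfl | rfl | rfl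
      · rcases hd with ⟨i, h1, h2, rfl⟩ | ⟨i, h1, h2, rfl⟩ | ⟨_, rfl⟩
        · have := (hs.wz _ _ (by omega) (by omega)).1 hadj
          rcases this with rfl | h3 | h3
          · exact hdc rfl
          · omega
          · omega
        · exact hs.zz _ _ (by omega) (by omega) hadj
        · exact hs.zz _ _ (by omega) (by omega) hadj
      · exact hxc rfl
      · rcases hd with ⟨i, h1, h2, rfl⟩ | ⟨i, h1, h2, rfl⟩ | ⟨_, rfl⟩
        · have := (hs.ww i (m + 2) (by omega) (by omega)).1 hadj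
          rcases this with h3 | h3
          · obtain rfl : i = m + 1 := by omega
            exact hdc rfl
          · omega
        · have := (hs.wz _ _ (by omega) (by omega)).1 hadj.symm
          rcases this with h3 | h3 | h3 <;> omega
        · have := (hs.wz _ _ (by omega) (by omega)).1 hadj.symm
          rcases this with h3 | h3 | h3 <;> omega)
  have h2 := attach hφ hB h1 hw2 (hU _ hw2) (Or.inr (Or.inr rfl)) (Or.inr (Or.inr rfl)) ?_ ?_
  · have e1 : full G S B (Idx w z e m) ∪ (piece G S B (z (m + 1)) ∪ {w (m + 1), w (m + 2)}) ∪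
        piece G S B (w (m + 2)) = full G S B (Idx w z e (m + 1)) := by
      ext x
      constructor
      · rintro ((⟨c, hc, h⟩ | h | rfl | rfl) | h)
        · refine ⟨c, ?_, h⟩
          rcases hc with ⟨i, h1, h2, rfl⟩ | ⟨i, h1, h2, rfl⟩ | h3
          · exact Or.inl ⟨i, h1, by omega, rfl⟩
          · exact Or.inr (Or.inl ⟨i, h1, by omega, rfl⟩)
          · exact Or.inr (Or.inr h3)
        · exact ⟨z (m + 1), Or.inr (Or.inl ⟨m + 1, by omega, le_rfl, rfl⟩), h⟩
        · exact ⟨w (m + 1), Or.inl ⟨m + 1, by omega, by omega, rfl⟩, self_mem_piece hB.1 hw1⟩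
        · exact ⟨w (m + 2), Or.inl ⟨m + 2, by omega, by omega, rfl⟩, self_mem_piece hB.1 hw2⟩
        · exact ⟨w (m + 2), Or.inl ⟨m + 2, by omega, by omega, rfl⟩, h⟩
      · rintro ⟨c, ⟨i, h1, h2, rfl⟩ | ⟨i, h1, h2, rfl⟩ | h3, h⟩
        · by_cases hi : i = m + 2
          · subst hi
            exact Or.inr h
          · exact Or.inl (Or.inl ⟨w i, Or.inl ⟨i, h1, by omega, rfl⟩, h⟩)
        · by_cases hi : i = m + 1
          · subst hi
            exact Or.inl (Or.inr (Or.inl h))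
          · exact Or.inl (Or.inl ⟨z i, Or.inr (Or.inl ⟨i, h1, by omega, rfl⟩), h⟩)
        · exact Or.inl (Or.inl ⟨c, Or.inr (Or.inr h3), h⟩)
    rw [e1] at h2
    exact h2
  · rintro x (rfl | rfl | rfl)
    · exact Or.inl ⟨w (m + 1), Or.inl ⟨m + 1, by omega, le_rfl, rfl⟩, self_mem_piece hB.1 hw1⟩
    · exact Or.inl ⟨w (m + 1), Or.inl ⟨m + 1, by omega, le_rfl, rfl⟩, self_mem_piece hB.1 hw1⟩
    · exact Or.inr (Or.inr (Or.inr rfl))
  · rintro x (⟨c, hc, h⟩ | h | rfl | rfl)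
    · refine ⟨c, hIB hc, h, fun hcw => ?_⟩
      subst hcw
      exfalso
      rcases hc with ⟨i, h1, h2, h3⟩ | ⟨i, h1, h2, h3⟩ | ⟨_, h3⟩
      · have := hs.winj _ _ (by omega) (by omega) h3
        omega
      · exact hs.wne _ _ (by omega) (by omega) h3
      · exact hs.wne _ _ (by omega) (by omega) h3
    · exact ⟨z (m + 1), hz1, h, fun h => absurd h.symm (hs.wne _ _ (by omega) (by omega))⟩
    · exact ⟨w (m + 1), hw1, self_mem_piece hB.1 hw1, fun h => absurd h hww⟩
    · exact ⟨w (m + 2), hw2, self_mem_piece hB.1 hw2, fun _ => rfl⟩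

lemma chain (hφ : ArchFun φ) (hB : BlockIn G S B) (hs : SunData G B k w z)
    (hU : ∀ b ∈ B, Fam G φ (piece G S B b) {b} {b} {b}) (e : Prop) (m : ℕ) (hm : m + 1 < k) :
    Fam G φ (full G S B (Idx w z e m)) {w (m + 1)} (Lft w z e) {w (m + 1)} := by
  induction m with
  | zero => exact base hφ hB hs hU e
  | succ m ih => exact chain_step hφ hB hs hU e (by omega) (ih (by omega))

/-- all indices, `z 0` only if `e` -/
def Jdx (k : ℕ) (w z : ℕ → V) (e : Prop) : Set V :=
  {c | (∃ i, i < k ∧ c = w i) ∨ (∃ i, 1 ≤ i ∧ i < k ∧ c = z i) ∨ (e ∧ c = z 0)}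

lemma around (hφ : ArchFun φ) (hB : BlockIn G S B) (hs : SunData G B k w z)
    (hU : ∀ b ∈ B, Fam G φ (piece G S B b) {b} {b} {b}) (e : Prop) :
    Fam G φ (full G S B (Jdx k w z e)) {w 0} (Lft w z e ∪ {w 0}) {w 0} := by
  obtain ⟨m, rfl⟩ : ∃ m, k = m + 2 := ⟨k - 2, by have := hs.hk; omega⟩
  have hk := hs.hk
  have h := chain hφ hB hs hU e m (by omega)
  have hw0 := hs.hw 0 (by omega)
  have hw1 := hs.hw (m + 1) (by omega)
  have hz1 := hs.hz (m + 1) (by omega)
  have hIB := idx_sub hs e (m := m) (by omega)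
  have hu := unit hφ hB hz1 (K := {w (m + 1)}) (singleton_subset_iff.2 hw1) (hU _ hz1)
    (fun h => hs.wne (m + 1) (m + 1) (by omega) (by omega) (mem_singleton_iff.1 h).symm)
    (fun x hx y hy hxy => absurd ((mem_singleton_iff.1 hx).trans (mem_singleton_iff.1 hy).symm)
      hxy)
    (fun x hx => by
      rw [mem_singleton_iff.1 hx]
      exact (hs.wz _ _ (by omega) (by omega)).2 (Or.inl rfl))
  have h1 := cat hφ hB (I₁ := Idx w z e m) (I₂ := {z (m + 1), w (m + 1)}) h hu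
    (c := w (m + 1)) rfl (Or.inr rfl) rfl rfl
    (singleton_subset_iff.2 ⟨w (m + 1), Or.inl ⟨m + 1, by omega, le_rfl, rfl⟩,
      self_mem_piece hB.1 hw1⟩) subset_union_right (fun x hx => hx)
    (by
      rintro x (hx | rfl)
      · exact ⟨z (m + 1), Or.inl rfl, hx, fun h =>
          absurd h.symm (hs.wne _ _ (by omega) (by omega))⟩
      · exact ⟨w (m + 1), Or.inr rfl, self_mem_piece hB.1 hw1, fun _ => rfl⟩)
    hIB
    (by
      rintro x (rfl | rfl)
      · exact hz1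
      · exact hw1)
    (by
      rintro d hd (rfl | rfl)
      · rcases hd with ⟨i, h1, h2, h3⟩ | ⟨i, h1, h2, h3⟩ | ⟨_, h3⟩
        · exact absurd h3.symm (hs.wne _ _ (by omega) (by omega))
        · have := hs.zinj _ _ (by omega) (by omega) h3
          omega
        · have := hs.zinj _ _ (by omega) (by omega) h3
          omega
      · rfl)
    (by
      rintro d hd x hx hdc hxc hadj
      rcases hx with rfl | rfl
      · rcases hd with ⟨i, h1, h2, rfl⟩ | ⟨i, h1, h2, rfl⟩ | ⟨_, rfl⟩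
        · have := (hs.wz _ _ (by omega) (by omega)).1 hadj
          rcases this with rfl | h3 | h3
          · exact hdc rfl
          · omega
          · omega
        · exact hs.zz _ _ (by omega) (by omega) hadj
        · exact hs.zz _ _ (by omega) (by omega) hadj
      · exact hxc rfl)
  -- the indices of the present set
  have hidx : ∀ x ∈ full G S B (Idx w z e m) ∪ (piece G S B (z (m + 1)) ∪ {w (m + 1)}),
      ∃ c, ((∃ i, 1 ≤ i ∧ i < m + 2 ∧ c = w i) ∨ (∃ i, 1 ≤ i ∧ i < m + 2 ∧ c = z i) ∨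
        (e ∧ c = z 0)) ∧ x ∈ piece G S B c := by
    rintro x (⟨c, hc, h⟩ | h | rfl)
    · refine ⟨c, ?_, h⟩
      rcases hc with ⟨i, h1, h2, rfl⟩ | ⟨i, h1, h2, rfl⟩ | h3
      · exact Or.inl ⟨i, h1, by omega, rfl⟩
      · exact Or.inr (Or.inl ⟨i, h1, by omega, rfl⟩)
      · exact Or.inr (Or.inr h3)
    · exact ⟨z (m + 1), Or.inr (Or.inl ⟨m + 1, by omega, by omega, rfl⟩), h⟩
    · exact ⟨w (m + 1), Or.inl ⟨m + 1, by omega, by omega, rfl⟩, self_mem_piece hB.1 hw1⟩
  have hidxB : ∀ c, ((∃ i, 1 ≤ i ∧ i < m + 2 ∧ c = w i) ∨ (∃ i, 1 ≤ i ∧ i < m + 2 ∧ c = z i) ∨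
        (e ∧ c = z 0)) → c ∈ B ∧ c ≠ w 0 := by
    rintro c (⟨i, h1, h2, rfl⟩ | ⟨i, h1, h2, rfl⟩ | ⟨_, rfl⟩)
    · refine ⟨hs.hw i h2, fun h => ?_⟩
      have := hs.winj _ _ h2 (by omega) h
      omega
    · exact ⟨hs.hz i h2, fun h => hs.wne _ _ (by omega) h2 h.symm⟩
    · exact ⟨hs.hz 0 (by omega), fun h => hs.wne _ _ (by omega) (by omega) h.symm⟩
  have h2 := Fam.umbrella hφ (toFinite _) h1 (K := {w 0}) ?_
    (fun x hx y hy hxy => absurd ((mem_singleton_iff.1 hx).trans (mem_singleton_iff.1 hy).symm)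
      hxy) ?_
  · have h3 := attach hφ hB h2 hw0 (hU _ hw0) (Or.inr rfl) rfl subset_union_right ?_
    · have e1 : full G S B (Idx w z e m) ∪ (piece G S B (z (m + 1)) ∪ {w (m + 1)}) ∪ {w 0} ∪
          piece G S B (w 0) = full G S B (Jdx (m + 2) w z e) := by
        ext x
        constructor
        · rintro ((h | rfl) | h)
          · obtain ⟨c, hc, hx⟩ := hidx x h
            refine ⟨c, ?_, hx⟩
            rcases hc with ⟨i, h1, h2, rfl⟩ | ⟨i, h1, h2, rfl⟩ | h3
            · exact Or.inl ⟨i, h2, rfl⟩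
            · exact Or.inr (Or.inl ⟨i, h1, h2, rfl⟩)
            · exact Or.inr (Or.inr h3)
          · exact ⟨w 0, Or.inl ⟨0, by omega, rfl⟩, self_mem_piece hB.1 hw0⟩
          · exact ⟨w 0, Or.inl ⟨0, by omega, rfl⟩, h⟩
        · rintro ⟨c, ⟨i, h2, rfl⟩ | ⟨i, h1, h2, rfl⟩ | h3, h⟩
          · by_cases hi : i = 0
            · subst hi
              exact Or.inr h
            · exact Or.inl (Or.inl (Or.inl ⟨w i, Or.inl ⟨i, by omega, by omega, rfl⟩, h⟩))
          · by_cases hi : i = m + 1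
            · subst hi
              exact Or.inl (Or.inl (Or.inr (Or.inl h)))
            · exact Or.inl (Or.inl (Or.inl ⟨z i, Or.inr (Or.inl ⟨i, h1, by omega, rfl⟩), h⟩))
          · exact Or.inl (Or.inl (Or.inl ⟨c, Or.inr (Or.inr h3), h⟩))
      rw [e1] at h3
      exact h3
    · rintro x (h | rfl)
      · obtain ⟨c, hc, hx⟩ := hidx x h
        exact ⟨c, (hidxB c hc).1, hx, fun h => absurd h (hidxB c hc).2⟩
      · exact ⟨w 0, hw0, self_mem_piece hB.1 hw0, fun _ => rfl⟩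
  · rintro x rfl hx
    obtain ⟨c, hc, hxc⟩ := hidx _ hx
    exact (hidxB c hc).2 (piece_disjoint hB hw0 (hidxB c hc).1 (self_mem_piece hB.1 hw0) hxc).symm
  · rintro x rfl y hy
    obtain ⟨c, hc, hyc⟩ := hidx _ hy
    constructor
    · intro hadj
      obtain ⟨-, rfl⟩ := piece_edge hB hw0 (hidxB c hc).1 (self_mem_piece hB.1 hw0) hyc
        (hidxB c hc).2.symm hadj
      rcases hc with ⟨i, h1, h2, rfl⟩ | ⟨i, h1, h2, rfl⟩ | ⟨he, rfl⟩
      · rcases (hs.ww 0 i (by omega) h2).1 hadj with h3 | h3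
        · subst h3
          exact Or.inl (Or.inl rfl)
        · obtain rfl : i = m + 1 := by omega
          exact Or.inr (Or.inr rfl)
      · rcases (hs.wz 0 i (by omega) h2).1 hadj with h3 | h3 | h3
        · omega
        · omega
        · obtain rfl : i = m + 1 := by omega
          exact Or.inr (Or.inl rfl)
      · exact Or.inl (Or.inr ⟨he, rfl⟩)
    · rintro ((rfl | ⟨_, rfl⟩) | (rfl | rfl))
      · exact (hs.ww 0 1 (by omega) (by omega)).2 (Or.inl rfl)
      · exact (hs.wz 0 0 (by omega) (by omega)).2 (Or.inl rfl)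
      · exact (hs.wz 0 (m + 1) (by omega) (by omega)).2 (Or.inr (Or.inr ⟨rfl, by omega⟩))
      · exact (hs.ww 0 (m + 1) (by omega) (by omega)).2 (Or.inr ⟨rfl, by omega⟩)

lemma root_w (hφ : ArchFun φ) (hS : Conn G S) (hB : BlockIn G S B) (hs : SunData G B k w z)
    (hU : ∀ b ∈ B, Fam G φ (piece G S B b) {b} {b} {b}) : Fam G φ S {w 0} {w 0} {w 0} := by
  have h := around hφ hB hs hU True
  have e1 : full G S B (Jdx k w z True) = S := by
    ext x
    constructor
    · rintro ⟨c, _, hx⟩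
      exact hx.1.1
    · intro hx
      obtain ⟨b, hb, hxb⟩ := piece_cover hS hB hx
      refine ⟨b, ?_, hxb⟩
      rcases hs.cover b hb with ⟨i, hi, rfl⟩ | ⟨i, hi, rfl⟩
      · exact Or.inl ⟨i, hi, rfl⟩
      · by_cases h0 : i = 0
        · subst h0
          exact Or.inr (Or.inr ⟨trivial, rfl⟩)
        · exact Or.inr (Or.inl ⟨i, by omega, hi, rfl⟩)
  rw [e1] at h
  exact h.mono subset_rfl subset_union_right subset_rfl

lemma root_z (hφ : ArchFun φ) (hS : Conn G S) (hB : BlockIn G S B) (hs : SunData G B k w z)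
    (hU : ∀ b ∈ B, Fam G φ (piece G S B b) {b} {b} {b}) : Fam G φ S {z 0} {z 0} {z 0} := by
  have hk := hs.hk
  have h := around hφ hB hs hU False
  have hz0 := hs.hz 0 (by omega)
  have hw0 := hs.hw 0 (by omega)
  have hJ : ∀ c ∈ Jdx k w z False, c ∈ B ∧ c ≠ z 0 := by
    rintro c (⟨i, hi, rfl⟩ | ⟨i, h1, hi, rfl⟩ | ⟨h, _⟩)
    · exact ⟨hs.hw i hi, hs.wne i 0 hi (by omega)⟩
    · refine ⟨hs.hz i hi, fun h => ?_⟩
      have := hs.zinj _ _ hi (by omega) h
      omega
    · exact absurd h (fun h => h)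
  have h2 := Fam.umbrella hφ (toFinite _) h (K := {z 0}) ?_
    (fun x hx y hy hxy => absurd ((mem_singleton_iff.1 hx).trans (mem_singleton_iff.1 hy).symm)
      hxy) ?_
  · have h3 := attach hφ hB h2 hz0 (hU _ hz0) (Or.inr rfl) rfl subset_union_right ?_
    · have e1 : full G S B (Jdx k w z False) ∪ {z 0} ∪ piece G S B (z 0) = S := by
        ext x
        constructor
        · rintro ((⟨c, _, hx⟩ | rfl) | hx)
          · exact hx.1.1
          · exact hB.1 hz0
          · exact hx.1.1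
        · intro hx
          obtain ⟨b, hb, hxb⟩ := piece_cover hS hB hx
          rcases hs.cover b hb with ⟨i, hi, rfl⟩ | ⟨i, hi, rfl⟩
          · exact Or.inl (Or.inl ⟨w i, Or.inl ⟨i, hi, rfl⟩, hxb⟩)
          · by_cases h0 : i = 0
            · subst h0
              exact Or.inr hxb
            · exact Or.inl (Or.inl ⟨z i, Or.inr (Or.inl ⟨i, by omega, hi, rfl⟩), hxb⟩)
      rw [e1] at h3
      exact h3.mono subset_rfl subset_union_right subset_rfl
    · rintro x (⟨c, hc, hx⟩ | rfl)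
      · exact ⟨c, (hJ c hc).1, hx, fun h => absurd h (hJ c hc).2⟩
      · exact ⟨z 0, hz0, self_mem_piece hB.1 hz0, fun _ => rfl⟩
  · rintro x rfl ⟨c, hc, hxc⟩
    exact (hJ c hc).2 (piece_disjoint hB hz0 (hJ c hc).1 (self_mem_piece hB.1 hz0) hxc).symm
  · rintro x rfl y ⟨c, hc, hyc⟩
    constructor
    · intro hadj
      obtain ⟨-, rfl⟩ := piece_edge hB hz0 (hJ c hc).1 (self_mem_piece hB.1 hz0) hyc
        (hJ c hc).2.symm hadj
      rcases hc with ⟨i, hi, rfl⟩ | ⟨i, h1, hi, rfl⟩ | ⟨h, _⟩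
      · rcases (hs.wz i 0 hi (by omega)).1 hadj.symm with h3 | h3 | h3
        · subst h3
          exact Or.inr rfl
        · obtain rfl : i = 1 := by omega
          exact Or.inl (Or.inl (Or.inl rfl))
        · omega
      · exact absurd hadj (hs.zz 0 i (by omega) hi)
      · exact absurd h (fun h => h)
    · rintro (((rfl | ⟨h, _⟩) | rfl) | rfl)
      · exact ((hs.wz 1 0 (by omega) (by omega)).2 (Or.inr (Or.inl rfl))).symm
      · exact absurd h (fun h => h)
      · exact ((hs.wz 0 0 (by omega) (by omega)).2 (Or.inl rfl)).symm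
      · exact ((hs.wz 0 0 (by omega) (by omega)).2 (Or.inl rfl)).symm

end chain

end Pool.Agent.Q107.Sun
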