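import Pool.Agent.Q107.Sun.Chain

set_option autoImplicit false

/-!
Graphs whose blocks are chordless suns.
-/

namespace Pool.Agent.Q107.Sun

open Set

/-- The chordless `k`-sun: the cycle of the vertices `inl i`, and the vertices `inr i`, where `inr i`
is adjacent exactly to `inl i` and `inl (i + 1)`. -/
def sun (k : ℕ) : SimpleGraph (ZMod k ⊕ ZMod k) where
  Adj x y := match x, y with
    | Sum.inl i, Sum.inl j => i ≠ j ∧ (j = i + 1 ∨ i = j + 1)
    | Sum.inl i, Sum.inr j => i = j ∨ i = j + 1
    | Sum.inr i, Sum.inl j => j = i ∨ j = i + 1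
    | Sum.inr _, Sum.inr _ => False
  symm := ⟨by
    rintro (i | i) (j | j) h
    · exact ⟨h.1.symm, h.2.symm⟩
    · exact h
    · exact h
    · exact h⟩
  loopless := ⟨by
    rintro (i | i) h
    · exact h.1 rfl
    · exact h⟩

lemma cast_eq {k a b : ℕ} (ha : a < k) (hb : b < k) : (a : ZMod k) = b ↔ a = b := by
  rw [ZMod.natCast_eq_natCast_iff', Nat.mod_eq_of_lt ha, Nat.mod_eq_of_lt hb]

lemma cast_succ {k a b : ℕ} (ha : a < k) (hb : b < k) :
    (b : ZMod k) = a + 1 ↔ b = a + 1 ∨ (b = 0 ∧ a = k - 1) := by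
  have h : ((a : ZMod k) + 1) = ((a + 1 : ℕ) : ZMod k) := by push_cast; rfl
  rw [h, ZMod.natCast_eq_natCast_iff', Nat.mod_eq_of_lt hb]
  by_cases hk : a + 1 = k
  · rw [hk, Nat.mod_self]
    omega
  · rw [Nat.mod_eq_of_lt (by omega : a + 1 < k)]
    omega

variable {V : Type} {G : SimpleGraph V}

lemma sunData_of_iso {A : Set V} {k : ℕ} (hk : 3 ≤ k) (f : G.induce A ≃g sun k) (r : ZMod k) :
    SunData G A k (fun j => (f.symm (Sum.inl (r + j))).1) (fun j => (f.symm (Sum.inr (r + j))).1) := by
  have hinj : ∀ x y, (f.symm x).1 = (f.symm y).1 → x = y := fun x y h =>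
    f.symm.injective (Subtype.ext h)
  have hadj : ∀ x y, G.Adj (f.symm x).1 (f.symm y).1 ↔ (sun k).Adj x y := fun x y => by
    rw [← f.symm.map_adj_iff (v := x) (w := y)]
    rfl
  have : NeZero k := ⟨by omega⟩
  refine ⟨hk, fun i _ => (f.symm _).2, fun i _ => (f.symm _).2, ?_, ?_, ?_, ?_, ?_, ?_, ?_⟩
  · intro i j hi hj h
    have h1 := Sum.inl_injective (hinj _ _ h)
    exact (cast_eq hi hj).1 (add_left_cancel h1)
  · intro i j hi hj h
    have h1 := Sum.inr_injective (hinj _ _ h)
    exact (cast_eq hi hj).1 (add_left_cancel h1)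
  · intro i j hi hj h
    exact Sum.inl_ne_inr (hinj _ _ h)
  · intro x hx
    have key : ∀ c : ZMod k, ∃ i, i < k ∧ c = r + (i : ℕ) := fun c =>
      ⟨(c - r).val, ZMod.val_lt _, by rw [ZMod.natCast_zmod_val]; ring⟩
    rcases h : f ⟨x, hx⟩ with c | c
    · left
      obtain ⟨i, hi, hc⟩ := key c
      refine ⟨i, hi, ?_⟩
      show x = (f.symm (Sum.inl (r + i))).1
      rw [← hc, ← h, f.symm_apply_apply]
    · right
      obtain ⟨i, hi, hc⟩ := key c
      refine ⟨i, hi, ?_⟩
      show x = (f.symm (Sum.inr (r + i))).1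
      rw [← hc, ← h, f.symm_apply_apply]
  · intro i j hij hj
    rw [hadj]
    show (r + (i : ZMod k) ≠ r + j ∧ (r + (j : ZMod k) = r + i + 1 ∨ r + (i : ZMod k) = r + j + 1)) ↔ _
    rw [add_assoc, add_assoc, add_right_inj, add_right_inj, Ne, add_right_inj,
      cast_eq (by omega) hj, cast_succ (by omega) hj, cast_succ hj (by omega)]
    omega
  · intro i j hi hj
    rw [hadj]
    show (r + (i : ZMod k) = r + j ∨ r + (i : ZMod k) = r + j + 1) ↔ _
    rw [add_assoc, add_right_inj, add_right_inj, cast_eq hi hj, cast_succ hj hi]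
  · intro i j hi hj
    rw [hadj]
    exact fun h => h

def SunSet (G : SimpleGraph V) (A : Set V) : Prop :=
  ∃ k, 3 ≤ k ∧ Nonempty (G.induce A ≃g sun k)

variable [Finite V] {φ : ℝ → ℝ → ℝ}

theorem main (hφ : ArchFun φ) (n : ℕ) : ∀ S : Set V, S.ncard ≤ n → Conn G S →
    (∀ A, BlockIn G S A → (∃ x ∈ A, ∃ y ∈ A, x ≠ y) → SunSet G A) →
    ∀ v ∈ S, Fam G φ S {v} {v} {v} := by
  induction n with
  | zero =>
    intro S hS _ _ v hv
    have : S = ∅ := (Set.ncard_eq_zero (toFinite S)).1 (by omega)
    rw [this] at hv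
    exact absurd hv (notMem_empty v)
  | succ n ih =>
    intro S hSn hS hA v hv
    by_cases h1 : ∃ w ∈ S, v ≠ w
    · obtain ⟨w, hw, hvw⟩ := h1
      obtain ⟨B, hB, hvB, x, hx, y, hy, hxy⟩ := exists_block hS hv hw hvw
      obtain ⟨k, hk, ⟨f⟩⟩ := hA B hB ⟨x, hx, y, hy, hxy⟩
      have hU : ∀ b ∈ B, Fam G φ (piece G S B b) {b} {b} {b} := by
        intro b hb
        apply ih (piece G S B b) ?_ (conn_piece b) ?_ b (self_mem_piece hB.1 hb)
        · obtain ⟨b', hb', hne⟩ : ∃ b' ∈ B, b' ≠ b := by
            by_cases h : x = b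
            · exact ⟨y, hy, fun h' => hxy (h.trans h'.symm)⟩
            · exact ⟨x, hx, h⟩
          have hlt : (piece G S B b).ncard < S.ncard := by
            apply Set.ncard_lt_ncard _ (toFinite S)
            refine ⟨piece_subset b, fun h => ?_⟩
            exact (h (hB.1 hb')).1.2 ⟨hb', hne⟩
          omega
        · intro A hA1 hA2
          exact hA A (block_piece hB hb hA1 hA2) hA2
      rcases hc : f ⟨v, hvB⟩ with c | c
      · have hs := sunData_of_iso hk f c
        have h2 := root_w hφ hS hB hs hU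
        have h3 : (f.symm (Sum.inl (c + ((0 : ℕ) : ZMod k)))).1 = v := by
          rw [Nat.cast_zero, add_zero, ← hc, f.symm_apply_apply]
        simp only [h3] at h2
        exact h2
      · have hs := sunData_of_iso hk f c
        have h2 := root_z hφ hS hB hs hU
        have h3 : (f.symm (Sum.inr (c + ((0 : ℕ) : ZMod k)))).1 = v := by
          rw [Nat.cast_zero, add_zero, ← hc, f.symm_apply_apply]
        simp only [h3] at h2
        exact h2
    · push Not at h1
      have e : S = ∅ ∪ {v} := by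
        rw [empty_union]
        exact Subset.antisymm (fun w hw => (h1 w hw).symm) (singleton_subset_iff.2 hv)
      have h2 := Fam.umbrella (G := G) hφ finite_empty fam_empty (K := {v})
        (fun x _ => notMem_empty x)
        (fun x hx y hy hxy => absurd ((mem_singleton_iff.1 hx).trans
          (mem_singleton_iff.1 hy).symm) hxy)
        (fun x _ y hy => absurd hy (notMem_empty y))
      rw [e]
      exact h2.mono subset_rfl subset_union_right subset_union_right

omit [Finite V] in
lemma preconn_iff (T : Set V) : (G.induce T).Preconnected ↔ Conn G T := by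
  constructor
  · intro h x hx y hy
    have h1 := h ⟨x, hx⟩ ⟨y, hy⟩
    rw [SimpleGraph.reachable_iff_reflTransGen] at h1
    have key : ∀ v : T, Relation.ReflTransGen (G.induce T).Adj ⟨x, hx⟩ v → Rch G T x v.1 := by
      intro v hv
      induction hv with
      | refl => exact Rch.refl _ _
      | @tail b c _ hbc ih => exact ih.trans (rch_step hbc b.2 c.2)
    exact key _ h1
  · rintro h ⟨x, hx⟩ ⟨y, hy⟩
    have key : ∀ v, Rch G T x v → ∀ hv : v ∈ T, (G.induce T).Reachable ⟨x, hx⟩ ⟨v, hv⟩ := by
      intro v hv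
      induction hv with
      | refl => exact fun _ => SimpleGraph.Reachable.refl _
      | @tail b c _ hbc ih =>
        intro hc
        refine (ih hbc.2.1).trans (SimpleGraph.Adj.reachable ?_)
        exact hbc.1
    exact key y (h x hx y hy) hy

/-- all vertices, from the components -/
theorem all_of_closed (hφ : ArchFun φ)
    (hA : ∀ A, BlockIn G univ A → (∃ x ∈ A, ∃ y ∈ A, x ≠ y) → SunSet G A) (n : ℕ) :
    ∀ S : Set V, S.ncard ≤ n → (∀ x ∈ S, ∀ y, G.Adj x y → y ∈ S) → Fam G φ S ∅ ∅ ∅ := by
  induction n with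
  | zero =>
    intro S hS _
    have : S = ∅ := (Set.ncard_eq_zero (toFinite S)).1 (by omega)
    rw [this]
    exact fam_empty
  | succ n ih =>
    intro S hSn hcl
    by_cases hne : S.Nonempty
    · obtain ⟨x, hx⟩ := hne
      set K : Set V := {y | y ∈ (univ : Set V) ∧ Rch G univ x y} with hK
      have hKc : Conn G K := conn_comp x
      have hxK : x ∈ K := ⟨mem_univ _, Rch.refl _ _⟩
      have hKS : K ⊆ S := by
        intro y hy'
        have hy := hy'.2
        clear hy'
        induction hy with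
        | refl => exact hx
        | tail _ h ih => exact hcl _ ih _ h.1
      have hKcl : ∀ y ∈ K, ∀ z, G.Adj y z → z ∈ K := fun y hy z hyz =>
        ⟨mem_univ _, hy.2.trans (rch_step hyz (mem_univ _) (mem_univ _))⟩
      have h1 : Fam G φ K ∅ ∅ ∅ := by
        refine (main hφ K.ncard K le_rfl hKc ?_ x hxK).mono (empty_subset _) (empty_subset _)
          (empty_subset _)
        intro A hA1 hA2
        refine hA A ⟨subset_univ _, hA1.2.1, fun B' _ hB' hB'' => ?_⟩ hA2
        refine hA1.2.2 B' ?_ hB' hB''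
        intro y hy
        obtain ⟨a, ha⟩ := hA1.2.1.1
        have h3 := (hB''.2.1 a (hB' ha) y hy).mono (subset_univ _)
        exact ⟨mem_univ _, (hA1.1 ha).2.trans h3⟩
      have h2 : Fam G φ (S \ K) ∅ ∅ ∅ := by
        apply ih
        · have hlt : (S \ K).ncard < S.ncard := by
            apply Set.ncard_lt_ncard _ (toFinite S)
            exact ⟨fun y hy => hy.1, fun h => (h hx).2 hxK⟩
          omega
        · intro y hy z hyz
          exact ⟨hcl y hy.1 z hyz, fun h => hy.2 (hKcl z h y hyz.symm)⟩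
      have h3 := Fam.disj hφ h1 h2 (fun y hy hy' => hy'.2 hy)
        (fun y hy z hz hyz => hz.2 (hKcl y hy z hyz))
      rwa [union_sdiff_cancel hKS] at h3
    · rw [not_nonempty_iff_eq_empty.1 hne]
      exact fam_empty

end Pool.Agent.Q107.Sun
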