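import Mathlib

set_option autoImplicit false

/-!
Tolerance representations in a strip and two ways to combine them.
-/

namespace Pool.Agent.Q107.Sun

open Filter Set

/-- The length of the intersection of the closed intervals `[a, b]` and `[c, d]`. -/
noncomputable def ilen (a b c d : ℝ) : ℝ := max 0 (min b d - max a c)

/-- `φ` is symmetric, positive and Archimedean on the positive real numbers. -/
structure ArchFun (φ : ℝ → ℝ → ℝ) : Prop where
  symm : ∀ x y, 0 < x → 0 < y → φ x y = φ y x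
  pos : ∀ x y, 0 < x → 0 < y → 0 < φ x y
  left : ∀ c, 0 < c → Tendsto (fun x => φ x c) atTop atTop
  right : ∀ c, 0 < c → Tendsto (fun x => φ c x) atTop atTop

lemma ilen_comm (a b c d : ℝ) : ilen a b c d = ilen c d a b := by
  unfold ilen
  rw [min_comm, max_comm a c]

lemma ilen_nonneg (a b c d : ℝ) : 0 ≤ ilen a b c d := le_max_left _ _

lemma ilen_mono {a b c d a' b' c' d' : ℝ} (ha : a' ≤ a) (hb : b ≤ b') (hc : c' ≤ c) (hd : d ≤ d') :
    ilen a b c d ≤ ilen a' b' c' d' := by
  unfold ilen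
  apply max_le_max le_rfl
  have h1 := min_le_min hb hd
  have h2 := max_le_max ha hc
  linarith

variable {V : Type} (G : SimpleGraph V) (φ : ℝ → ℝ → ℝ)

/-- A tolerance representation of the graph induced by `S` with all intervals inside `[p, q]`, the
intervals of `L` with left end `p`, the intervals of `R` with right end `q`, and all tolerances of
`C` equal to `s`. -/
structure Strip (S C L R : Set V) (s : ℝ) (a b t : V → ℝ) (p q : ℝ) : Prop where
  pq : p ≤ q
  hull : ∀ x ∈ S, p ≤ a x ∧ a x ≤ b x ∧ b x ≤ q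
  tpos : ∀ x ∈ S, 0 < t x
  adj : ∀ x ∈ S, ∀ y ∈ S, x ≠ y →
    (G.Adj x y ↔ φ (t x) (t y) ≤ ilen (a x) (b x) (a y) (b y))
  hC : ∀ x ∈ C, t x = s
  hL : ∀ x ∈ L, a x = p
  hR : ∀ x ∈ R, b x = q

/-- Such representations exist for all large `s`. -/
structure Fam (S C L R : Set V) : Prop where
  subL : L ⊆ S
  subR : R ⊆ S
  cliqueL : ∀ x ∈ L, ∀ y ∈ L, x ≠ y → G.Adj x y
  cliqueR : ∀ x ∈ R, ∀ y ∈ R, x ≠ y → G.Adj x y
  ex : ∃ s0 : ℝ, 0 < s0 ∧ ∀ s, s0 ≤ s → ∃ (a b t : V → ℝ) (p q : ℝ), Strip G φ S C L R s a b t p q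

variable {G φ}

lemma Fam.mono {S C L R C' L' R' : Set V} (h : Fam G φ S C L R) (hC : C' ⊆ C) (hL : L' ⊆ L)
    (hR : R' ⊆ R) : Fam G φ S C' L' R' where
  subL := hL.trans h.subL
  subR := hR.trans h.subR
  cliqueL := fun x hx y hy => h.cliqueL x (hL hx) y (hL hy)
  cliqueR := fun x hx y hy => h.cliqueR x (hR hx) y (hR hy)
  ex := by
    obtain ⟨s0, h0, h1⟩ := h.ex
    refine ⟨s0, h0, fun s hs => ?_⟩
    obtain ⟨a, b, t, p, q, h2⟩ := h1 s hs
    exact ⟨a, b, t, p, q, h2.pq, h2.hull, h2.tpos, h2.adj, fun x hx => h2.hC x (hC hx),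
      fun x hx => h2.hL x (hL hx), fun x hx => h2.hR x (hR hx)⟩

/-- The empty representation. -/
lemma fam_empty : Fam G φ ∅ ∅ ∅ ∅ where
  subL := subset_rfl
  subR := subset_rfl
  cliqueL := fun x hx => absurd hx (notMem_empty x)
  cliqueR := fun x hx => absurd hx (notMem_empty x)
  ex := ⟨1, one_pos, fun s _ => ⟨fun _ => 0, fun _ => 0, fun _ => 1, 0, 0, le_rfl,
    fun x hx => absurd hx (notMem_empty x), fun x hx => absurd hx (notMem_empty x),
    fun x hx => absurd hx (notMem_empty x), fun x hx => absurd hx (notMem_empty x),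
    fun x hx => absurd hx (notMem_empty x), fun x hx => absurd hx (notMem_empty x)⟩⟩

/-- Concatenation at a common vertex. -/
lemma Fam.concat (hφ : ArchFun φ) {S₁ C₁ L₁ R₁ S₂ C₂ L₂ R₂ : Set V} (h₁ : Fam G φ S₁ C₁ L₁ R₁)
    (h₂ : Fam G φ S₂ C₂ L₂ R₂) (v : V) (hv1 : v ∈ R₁) (hv2 : v ∈ L₂) (hc1 : v ∈ C₁) (hc2 : v ∈ C₂)
    (hcS1 : C₁ ⊆ S₁) (hcS2 : C₂ ⊆ S₂)
    (hint : ∀ x, x ∈ S₁ → x ∈ S₂ → x = v)
    (hno : ∀ x ∈ S₁, ∀ y ∈ S₂, x ≠ v → y ≠ v → ¬ G.Adj x y) :
    Fam G φ (S₁ ∪ S₂) (C₁ ∪ C₂) L₁ R₂ where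
  subL := h₁.subL.trans subset_union_left
  subR := h₂.subR.trans subset_union_right
  cliqueL := h₁.cliqueL
  cliqueR := h₂.cliqueR
  ex := by
    classical
    obtain ⟨s1, hs1, H1⟩ := h₁.ex
    obtain ⟨s2, hs2, H2⟩ := h₂.ex
    refine ⟨max s1 s2, lt_of_lt_of_le hs1 (le_max_left _ _), fun s hs => ?_⟩
    obtain ⟨a1, b1, t1, p1, q1, A⟩ := H1 s ((le_max_left _ _).trans hs)
    obtain ⟨a2, b2, t2, p2, q2, B⟩ := H2 s ((le_max_right _ _).trans hs)
    have hvS1 : v ∈ S₁ := h₁.subR hv1
    have hvS2 : v ∈ S₂ := h₂.subL hv2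
    set d := q1 - p2 with hd
    set a : V → ℝ := fun x => if x ∈ S₁ then a1 x else a2 x + d with ha
    set b : V → ℝ := fun x => if x ∈ S₂ then b2 x + d else b1 x with hb
    set t : V → ℝ := fun x => if x ∈ S₁ then t1 x else t2 x with ht
    have hb1v : b1 v = q1 := A.hR v hv1
    have ha2v : a2 v = p2 := B.hL v hv2
    have htv : t1 v = t2 v := by rw [A.hC v hc1, B.hC v hc2]
    -- values
    have ea1 : ∀ x ∈ S₁, a x = a1 x := fun x hx => by simp [ha, hx]
    have eb2 : ∀ x ∈ S₂, b x = b2 x + d := fun x hx => by simp [hb, hx]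
    have et1 : ∀ x ∈ S₁, t x = t1 x := fun x hx => by simp [ht, hx]
    have ea2 : ∀ x ∈ S₂, x ≠ v → a x = a2 x + d := fun x hx hxv => by
      have : x ∉ S₁ := fun h => hxv (hint x h hx)
      simp [ha, this]
    have eb1 : ∀ x ∈ S₁, x ≠ v → b x = b1 x := fun x hx hxv => by
      have : x ∉ S₂ := fun h => hxv (hint x hx h)
      simp [hb, this]
    have et2 : ∀ x ∈ S₂, t x = t2 x := fun x hx => by
      by_cases h : x ∈ S₁
      · have := hint x h hx
        subst this
        rw [et1 x h, htv]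
      · simp [ht, h]
    have hv_a : a v = a1 v := ea1 v hvS1
    have hv_b : b v = b2 v + d := eb2 v hvS2
    have hA := A.hull
    have hB := B.hull
    have hvA := hA v hvS1
    have hvB := hB v hvS2
    have hpos : ∀ x, x ∈ S₁ ∪ S₂ → 0 < t x := by
      intro x hx
      by_cases h : x ∈ S₁
      · rw [et1 x h]; exact A.tpos x h
      · have h2 : x ∈ S₂ := hx.resolve_left h
        rw [et2 x h2]; exact B.tpos x h2
    -- adjacency up to symmetry
    have hsym : ∀ x y, x ∈ S₁ ∪ S₂ → y ∈ S₁ ∪ S₂ →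
        (G.Adj x y ↔ φ (t x) (t y) ≤ ilen (a x) (b x) (a y) (b y)) →
        (G.Adj y x ↔ φ (t y) (t x) ≤ ilen (a y) (b y) (a x) (b x)) := by
      intro x y hx hy h
      rw [G.adj_comm, hφ.symm _ _ (hpos y hy) (hpos x hx), ilen_comm]
      exact h
    -- pairs in `S₁`
    have c11 : ∀ x ∈ S₁, ∀ y ∈ S₁, x ≠ y → x ≠ v →
        (G.Adj x y ↔ φ (t x) (t y) ≤ ilen (a x) (b x) (a y) (b y)) := by
      intro x hx y hy hxy hxv
      rw [A.adj x hx y hy hxy, et1 x hx, et1 y hy, ea1 x hx, ea1 y hy, eb1 x hx hxv]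
      by_cases hyv : y = v
      · subst hyv
        rw [hv_b]
        have h1 := (hA x hx).2.2
        have h2 : ilen (a1 x) (b1 x) (a1 y) (b1 y) = ilen (a1 x) (b1 x) (a1 y) (b2 y + d) := by
          unfold ilen
          rw [hb1v, min_eq_left h1, min_eq_left (by linarith [hvB.2.1] : b1 x ≤ b2 y + d)]
        rw [h2]
      · rw [eb1 y hy hyv]
    have c22 : ∀ x ∈ S₂, ∀ y ∈ S₂, x ≠ y → x ≠ v →
        (G.Adj x y ↔ φ (t x) (t y) ≤ ilen (a x) (b x) (a y) (b y)) := by
      intro x hx y hy hxy hxv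
      rw [B.adj x hx y hy hxy, et2 x hx, et2 y hy, eb2 x hx, eb2 y hy, ea2 x hx hxv]
      have h2 : ilen (a2 x) (b2 x) (a2 y) (b2 y) = ilen (a2 x + d) (b2 x + d) (a y) (b2 y + d) := by
        by_cases hyv : y = v
        · subst hyv
          rw [hv_a]
          have h1 := (hB x hx).1
          unfold ilen
          rw [ha2v, max_eq_left h1, max_eq_left (by linarith [hvA.2.1] : a1 y ≤ a2 x + d),
            min_add_add_right]
          ring_nf
        · rw [ea2 y hy hyv]
          unfold ilen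
          rw [min_add_add_right, max_add_add_right]
          ring_nf
      rw [h2]
    have c12 : ∀ x ∈ S₁, ∀ y ∈ S₂, x ≠ v → y ≠ v →
        (G.Adj x y ↔ φ (t x) (t y) ≤ ilen (a x) (b x) (a y) (b y)) := by
      intro x hx y hy hxv hyv
      refine iff_of_false (hno x hx y hy hxv hyv) ?_
      rw [not_le]
      have h1 := (hA x hx).2.2
      have h2 := (hB y hy).1
      have h3 : ilen (a x) (b x) (a y) (b y) = 0 := by
        unfold ilen
        apply max_eq_left
        have h4 := min_le_left (b x) (b y)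
        have h5 := le_max_right (a x) (a y)
        rw [eb1 x hx hxv] at h4 ⊢
        rw [ea2 y hy hyv] at h5 ⊢
        linarith
      rw [h3]
      exact hφ.pos _ _ (hpos x (Or.inl hx)) (hpos y (Or.inr hy))
    refine ⟨a, b, t, p1, q2 + d, ?_, ?_, hpos, ?_, ?_, ?_, ?_⟩
    · have := A.pq
      have := B.pq
      linarith
    · intro x hx
      by_cases hxv : x = v
      · subst hxv
        rw [hv_a, hv_b]
        refine ⟨hvA.1, by linarith [hvA.2.1, hvB.2.1], by linarith [hvB.2.2]⟩
      · rcases hx with hx | hx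
        · rw [ea1 x hx, eb1 x hx hxv]
          have := hA x hx
          have := B.pq
          refine ⟨by linarith, by linarith, by linarith⟩
        · rw [ea2 x hx hxv, eb2 x hx]
          have := hB x hx
          have := A.pq
          refine ⟨by linarith, by linarith, by linarith⟩
    · intro x hx y hy hxy
      by_cases hxv : x = v
      · have hyv : y ≠ v := fun h => hxy (hxv.trans h.symm)
        apply hsym y x hy hx
        rcases hy with hy | hy
        · exact c11 y hy x (hxv ▸ hvS1) hxy.symm hyv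
        · exact c22 y hy x (hxv ▸ hvS2) hxy.symm hyv
      · rcases hx with hx | hx
        · rcases hy with hy | hy
          · exact c11 x hx y hy hxy hxv
          · by_cases hyv : y = v
            · exact c11 x hx y (hyv ▸ hvS1) hxy hxv
            · exact c12 x hx y hy hxv hyv
        · rcases hy with hy | hy
          · by_cases hyv : y = v
            · exact c22 x hx y (hyv ▸ hvS2) hxy hxv
            · exact hsym y x (Or.inl hy) (Or.inr hx) (c12 y hy x hx hyv hxv)
          · exact c22 x hx y hy hxy hxv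
    · rintro x (hx | hx)
      · rw [et1 x (hcS1 hx)]; exact A.hC x hx
      · rw [et2 x (hcS2 hx)]; exact B.hC x hx
    · intro x hx
      rw [ea1 x (h₁.subL hx)]
      exact A.hL x hx
    · intro x hx
      rw [eb2 x (h₂.subR hx), B.hR x hx]

/-- Disjoint unions. -/
lemma Fam.disj (hφ : ArchFun φ) {S₁ S₂ : Set V} (h₁ : Fam G φ S₁ ∅ ∅ ∅)
    (h₂ : Fam G φ S₂ ∅ ∅ ∅) (hint : ∀ x, x ∈ S₁ → x ∉ S₂)
    (hno : ∀ x ∈ S₁, ∀ y ∈ S₂, ¬ G.Adj x y) : Fam G φ (S₁ ∪ S₂) ∅ ∅ ∅ where
  subL := empty_subset _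
  subR := empty_subset _
  cliqueL := fun x hx => absurd hx (notMem_empty x)
  cliqueR := fun x hx => absurd hx (notMem_empty x)
  ex := by
    classical
    obtain ⟨s1, hs1, H1⟩ := h₁.ex
    obtain ⟨s2, hs2, H2⟩ := h₂.ex
    refine ⟨max s1 s2, lt_of_lt_of_le hs1 (le_max_left _ _), fun s hs => ?_⟩
    obtain ⟨a1, b1, t1, p1, q1, A⟩ := H1 s ((le_max_left _ _).trans hs)
    obtain ⟨a2, b2, t2, p2, q2, B⟩ := H2 s ((le_max_right _ _).trans hs)
    set d := q1 - p2 with hd
    set a : V → ℝ := fun x => if x ∈ S₁ then a1 x else a2 x + d with ha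
    set b : V → ℝ := fun x => if x ∈ S₁ then b1 x else b2 x + d with hb
    set t : V → ℝ := fun x => if x ∈ S₁ then t1 x else t2 x with ht
    have ea1 : ∀ x ∈ S₁, a x = a1 x ∧ b x = b1 x ∧ t x = t1 x := fun x hx => by
      simp [ha, hb, ht, hx]
    have ea2 : ∀ x ∈ S₂, a x = a2 x + d ∧ b x = b2 x + d ∧ t x = t2 x := fun x hx => by
      have : x ∉ S₁ := fun h => hint x h hx
      simp [ha, hb, ht, this]
    have hpos : ∀ x, x ∈ S₁ ∪ S₂ → 0 < t x := by
      rintro x (hx | hx)
      · rw [(ea1 x hx).2.2]; exact A.tpos x hx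
      · rw [(ea2 x hx).2.2]; exact B.tpos x hx
    have c12 : ∀ x ∈ S₁, ∀ y ∈ S₂,
        (G.Adj x y ↔ φ (t x) (t y) ≤ ilen (a x) (b x) (a y) (b y)) := by
      intro x hx y hy
      refine iff_of_false (hno x hx y hy) ?_
      rw [not_le]
      have h1 := (A.hull x hx).2.2
      have h2 := (B.hull y hy).1
      have h3 : ilen (a x) (b x) (a y) (b y) = 0 := by
        unfold ilen
        apply max_eq_left
        have h4 := min_le_left (b x) (b y)
        have h5 := le_max_right (a x) (a y)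
        rw [(ea1 x hx).2.1] at h4 ⊢
        rw [(ea2 y hy).1] at h5 ⊢
        linarith
      rw [h3]
      exact hφ.pos _ _ (hpos x (Or.inl hx)) (hpos y (Or.inr hy))
    refine ⟨a, b, t, p1, q2 + d, ?_, ?_, hpos, ?_, ?_, ?_, ?_⟩
    · have := A.pq
      have := B.pq
      linarith
    · rintro x (hx | hx)
      · rw [(ea1 x hx).1, (ea1 x hx).2.1]
        have := A.hull x hx
        have := B.pq
        refine ⟨by linarith, by linarith, by linarith⟩
      · rw [(ea2 x hx).1, (ea2 x hx).2.1]
        have := B.hull x hx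
        have := A.pq
        refine ⟨by linarith, by linarith, by linarith⟩
    · rintro x (hx | hx) y (hy | hy) hxy
      · rw [(ea1 x hx).1, (ea1 x hx).2.1, (ea1 x hx).2.2, (ea1 y hy).1, (ea1 y hy).2.1,
          (ea1 y hy).2.2]
        exact A.adj x hx y hy hxy
      · exact c12 x hx y hy
      · rw [G.adj_comm, hφ.symm _ _ (hpos x (Or.inr hx)) (hpos y (Or.inl hy)), ilen_comm]
        exact c12 y hy x hx
      · rw [(ea2 x hx).1, (ea2 x hx).2.1, (ea2 x hx).2.2, (ea2 y hy).1, (ea2 y hy).2.1,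
          (ea2 y hy).2.2, B.adj x hx y hy hxy]
        have h2 : ilen (a2 x) (b2 x) (a2 y) (b2 y) =
            ilen (a2 x + d) (b2 x + d) (a2 y + d) (b2 y + d) := by
          unfold ilen
          rw [min_add_add_right, max_add_add_right]
          ring_nf
        rw [h2]
    · exact fun x hx => absurd hx (notMem_empty x)
    · exact fun x hx => absurd hx (notMem_empty x)
    · exact fun x hx => absurd hx (notMem_empty x)

/-- New vertices whose intervals contain all others. -/
lemma Fam.umbrella (hφ : ArchFun φ) {S C L R K : Set V} (hfin : S.Finite)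
    (h : Fam G φ S C L R) (hKS : ∀ x ∈ K, x ∉ S)
    (hK : ∀ x ∈ K, ∀ y ∈ K, x ≠ y → G.Adj x y)
    (hadj : ∀ x ∈ K, ∀ y ∈ S, G.Adj x y ↔ y ∈ L ∨ y ∈ R) :
    Fam G φ (S ∪ K) K (L ∪ K) (R ∪ K) where
  subL := union_subset_union_left _ h.subL
  subR := union_subset_union_left _ h.subR
  cliqueL := by
    rintro x (hx | hx) y (hy | hy) hxy
    · exact h.cliqueL x hx y hy hxy
    · exact ((hadj y hy x (h.subL hx)).2 (Or.inl hx)).symm
    · exact (hadj x hx y (h.subL hy)).2 (Or.inl hy)
    · exact hK x hx y hy hxy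
  cliqueR := by
    rintro x (hx | hx) y (hy | hy) hxy
    · exact h.cliqueR x hx y hy hxy
    · exact ((hadj y hy x (h.subR hx)).2 (Or.inr hx)).symm
    · exact (hadj x hx y (h.subR hy)).2 (Or.inr hy)
    · exact hK x hx y hy hxy
  ex := by
    classical
    obtain ⟨s1, hs1, H1⟩ := h.ex
    obtain ⟨a1, b1, t1, p, q, A⟩ := H1 s1 le_rfl
    -- the threshold
    have hthr : ∃ s0 : ℝ, 0 < s0 ∧ ∀ s, s0 ≤ s → ∀ x ∈ S, b1 x - a1 x < φ s (t1 x) := by
      have h2 : ∀ x ∈ S, ∀ᶠ s in atTop, b1 x - a1 x < φ s (t1 x) := fun x hx =>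
        (hφ.left (t1 x) (A.tpos x hx)).eventually_gt_atTop _
      have h3 := (hfin.eventually_all (l := atTop)
        (p := fun x (s : ℝ) => b1 x - a1 x < φ s (t1 x))).2 h2
      obtain ⟨s0, h4⟩ := (h3.and (eventually_gt_atTop 0)).exists_forall_of_atTop
      exact ⟨s0, (h4 s0 le_rfl).2, fun s hs x hx => (h4 s hs).1 x hx⟩
    obtain ⟨s0, hs0, hthr⟩ := hthr
    refine ⟨s0, hs0, fun s hs => ?_⟩
    have hs_pos : 0 < s := lt_of_lt_of_le hs0 hs
    have hM : ∃ M : ℝ, 0 ≤ M ∧ φ s s ≤ M ∧ ∀ x ∈ S, φ s (t1 x) ≤ M := by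
      obtain ⟨M, hM⟩ := (hfin.image (fun x => φ s (t1 x))).bddAbove
      refine ⟨max (max 0 (φ s s)) M, (le_max_left _ _).trans (le_max_left _ _),
        (le_max_right _ _).trans (le_max_left _ _), fun x hx => ?_⟩
      exact (hM (mem_image_of_mem _ hx)).trans (le_max_right _ _)
    obtain ⟨M, hM0, hMs, hM⟩ := hM
    set a : V → ℝ := fun x => if x ∈ K ∨ x ∈ L then p - M else a1 x with ha
    set b : V → ℝ := fun x => if x ∈ K ∨ x ∈ R then q + M else b1 x with hb
    set t : V → ℝ := fun x => if x ∈ K then s else t1 x with ht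
    have hpq := A.pq
    have haK : ∀ x ∈ K, a x = p - M := fun x hx => by simp [ha, hx]
    have hbK : ∀ x ∈ K, b x = q + M := fun x hx => by simp [hb, hx]
    have htK : ∀ x ∈ K, t x = s := fun x hx => by simp [ht, hx]
    have hSK : ∀ x ∈ S, x ∉ K := fun x hx hk => hKS x hk hx
    have haL : ∀ x ∈ L, a x = p - M := fun x hx => by simp [ha, hx]
    have hbR : ∀ x ∈ R, b x = q + M := fun x hx => by simp [hb, hx]
    have haS : ∀ x ∈ S, x ∉ L → a x = a1 x := fun x hx hl => by simp [ha, hSK x hx, hl]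
    have hbS : ∀ x ∈ S, x ∉ R → b x = b1 x := fun x hx hl => by simp [hb, hSK x hx, hl]
    have htS : ∀ x ∈ S, t x = t1 x := fun x hx => by simp [ht, hSK x hx]
    have haS' : ∀ x ∈ S, a x ≤ a1 x := fun x hx => by
      by_cases hl : x ∈ L
      · rw [haL x hl, A.hL x hl]; linarith
      · rw [haS x hx hl]
    have hbS' : ∀ x ∈ S, b1 x ≤ b x := fun x hx => by
      by_cases hl : x ∈ R
      · rw [hbR x hl, A.hR x hl]; linarith
      · rw [hbS x hx hl]
    have hhull : ∀ x ∈ S ∪ K, p - M ≤ a x ∧ a x ≤ b x ∧ b x ≤ q + M := by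
      rintro x (hx | hx)
      · have h1 := A.hull x hx
        have h2 := haS' x hx
        have h3 := hbS' x hx
        refine ⟨?_, by linarith, ?_⟩
        · by_cases hl : x ∈ L
          · rw [haL x hl]
          · rw [haS x hx hl]; linarith
        · by_cases hl : x ∈ R
          · rw [hbR x hl]
          · rw [hbS x hx hl]; linarith
      · rw [haK x hx, hbK x hx]
        refine ⟨le_rfl, by linarith, le_rfl⟩
    have hpos : ∀ x ∈ S ∪ K, 0 < t x := by
      rintro x (hx | hx)
      · rw [htS x hx]; exact A.tpos x hx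
      · rw [htK x hx]; exact hs_pos
    have hKx : ∀ x ∈ K, ∀ y ∈ S ∪ K, ilen (a x) (b x) (a y) (b y) = b y - a y := by
      intro x hx y hy
      have h1 := hhull y hy
      unfold ilen
      rw [haK x hx, hbK x hx, min_eq_right h1.2.2, max_eq_right h1.1, max_eq_right (by linarith)]
    have hKS' : ∀ x ∈ K, ∀ y ∈ S,
        (G.Adj x y ↔ φ (t x) (t y) ≤ ilen (a x) (b x) (a y) (b y)) := by
      intro x hx y hy
      rw [hKx x hx y (Or.inl hy), htK x hx, htS y hy, hadj x hx y hy]
      have h1 := A.hull y hy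
      constructor
      · rintro (hl | hl)
        · have h2 := hM y hy
          have h3 := hbS' y hy
          rw [haL y hl]
          linarith
        · have h2 := hM y hy
          have h3 := haS' y hy
          rw [hbR y hl]
          linarith
      · intro h2
        by_contra hcon
        push Not at hcon
        rw [haS y hy hcon.1, hbS y hy hcon.2] at h2
        exact absurd h2 (not_le.2 (hthr s hs y hy))
    have hSS : ∀ x ∈ S, ∀ y ∈ S, x ≠ y →
        (G.Adj x y ↔ φ (t x) (t y) ≤ ilen (a x) (b x) (a y) (b y)) := by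
      intro x hx y hy hxy
      rw [htS x hx, htS y hy]
      by_cases had : G.Adj x y
      · refine iff_of_true had ?_
        refine ((A.adj x hx y hy hxy).1 had).trans ?_
        exact ilen_mono (haS' x hx) (hbS' x hx) (haS' y hy) (hbS' y hy)
      · refine iff_of_false had ?_
        have h1 := mt (A.adj x hx y hy hxy).2 had
        have h2 : ilen (a x) (b x) (a y) (b y) = ilen (a1 x) (b1 x) (a1 y) (b1 y) := by
          have e1 : max (a x) (a y) = max (a1 x) (a1 y) := by
            have hx1 := (A.hull x hx).1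
            have hy1 := (A.hull y hy).1
            by_cases hl : x ∈ L
            · have hly : y ∉ L := fun h' => had (h.cliqueL x hl y h' hxy)
              rw [haL x hl, haS y hy hly, A.hL x hl, max_eq_right hy1,
                max_eq_right (by linarith)]
            · rw [haS x hx hl]
              by_cases hly : y ∈ L
              · rw [haL y hly, A.hL y hly, max_eq_left hx1, max_eq_left (by linarith)]
              · rw [haS y hy hly]
          have e2 : min (b x) (b y) = min (b1 x) (b1 y) := by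
            have hx1 := (A.hull x hx).2.2
            have hy1 := (A.hull y hy).2.2
            by_cases hl : x ∈ R
            · have hly : y ∉ R := fun h' => had (h.cliqueR x hl y h' hxy)
              rw [hbR x hl, hbS y hy hly, A.hR x hl, min_eq_right hy1,
                min_eq_right (by linarith)]
            · rw [hbS x hx hl]
              by_cases hly : y ∈ R
              · rw [hbR y hly, A.hR y hly, min_eq_left hx1, min_eq_left (by linarith)]
              · rw [hbS y hy hly]
          unfold ilen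
          rw [e1, e2]
        rw [h2]
        exact h1
    refine ⟨a, b, t, p - M, q + M, by linarith, hhull, hpos, ?_, htK, ?_, ?_⟩
    · rintro x (hx | hx) y (hy | hy) hxy
      · exact hSS x hx y hy hxy
      · rw [G.adj_comm, hφ.symm _ _ (hpos x (Or.inl hx)) (hpos y (Or.inr hy)), ilen_comm]
        exact hKS' y hy x hx
      · exact hKS' x hx y hy
      · refine iff_of_true (hK x hx y hy hxy) ?_
        rw [hKx x hx y (Or.inr hy), htK x hx, htK y hy, haK y hy, hbK y hy]
        linarith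
    · rintro x (hx | hx)
      · exact haL x hx
      · exact haK x hx
    · rintro x (hx | hx)
      · exact hbR x hx
      · exact hbK x hx

end Pool.Agent.Q107.Sun
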